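import Pool.Agent.Helper87.CA.Goals

/-!
Packet CA-REC (MP_c5396e_co): the recursion.
-/

set_option autoImplicit false

open Finset

namespace Pool.Agent.Helper13.CA

open Pool.Agent.Helper87.CA Pool.Agent.Helper96

theorem Vd_comm {n : ℕ} (f g : Fin n → Fin n) : Vd f g = Vd g f := by
  ext i
  simp only [Vd, mem_filter, mem_univ, true_and]
  exact ne_comm

theorem agree {n : ℕ} {f g f0 : Fin n → Fin n} {R : Finset (Fin n)}
    (h : (R ∩ Vd f f0).image (fun i => (i, f i)) = (R ∩ Vd g f0).image (fun i => (i, g i))) :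
    ∀ i ∈ R, f i = g i := by
  intro i hi
  by_cases h1 : f i = f0 i
  · by_cases h2 : g i = f0 i
    · rw [h1, h2]
    · have hm : (i, g i) ∈ (R ∩ Vd g f0).image (fun i => (i, g i)) := by
        refine mem_image.2 ⟨i, ?_, rfl⟩
        simp only [mem_inter, Vd, mem_filter, mem_univ, true_and]
        exact ⟨hi, h2⟩
      rw [← h] at hm
      obtain ⟨j, -, hj⟩ := mem_image.1 hm
      have hj1 : j = i := (Prod.mk.injEq _ _ _ _ ▸ hj).1
      have hj2 : f j = g i := (Prod.mk.injEq _ _ _ _ ▸ hj).2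
      rw [hj1] at hj2
      exact hj2
  · have hm : (i, f i) ∈ (R ∩ Vd f f0).image (fun i => (i, f i)) := by
      refine mem_image.2 ⟨i, ?_, rfl⟩
      simp only [mem_inter, Vd, mem_filter, mem_univ, true_and]
      exact ⟨hi, h1⟩
    rw [h] at hm
    obtain ⟨j, -, hj⟩ := mem_image.1 hm
    have hj1 : j = i := (Prod.mk.injEq _ _ _ _ ▸ hj).1
    have hj2 : g j = f i := (Prod.mk.injEq _ _ _ _ ▸ hj).2
    rw [hj1] at hj2
    exact hj2.symm

open Classical in
/-- Averaging: a random set of columns which is good for half of the family. -/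
theorem exists_omega {E : Type*} [Fintype E] [DecidableEq E] {α : Type*} (F : Finset α)
    (A : α → (E → Bool) → Prop) {p : ℝ} (h0 : 0 ≤ p) (h1 : p ≤ 1)
    (h : ∀ f ∈ F, 1 / 2 ≤ pr p (A f)) :
    ∃ ω : E → Bool, (F.card : ℝ) ≤ 2 * ((F.filter (fun f => A f ω)).card : ℝ) := by
  obtain ⟨ω0, hω0⟩ := Finite.exists_max
    (fun ω : E → Bool => ((F.filter (fun f => A f ω)).card : ℝ))
  refine ⟨ω0, ?_⟩
  have e1 : ex p (fun ω : E → Bool => ∑ f ∈ F, (if A f ω then (1 : ℝ) else 0)) =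
      ∑ f ∈ F, pr p (A f) := by
    rw [ex_sum]
    rfl
  have e2 : ex p (fun ω : E → Bool => ∑ f ∈ F, (if A f ω then (1 : ℝ) else 0)) ≤
      ex p (fun _ : E → Bool => ((F.filter (fun f => A f ω0)).card : ℝ)) := by
    apply ex_mono h0 h1
    intro ω
    rw [← Finset.sum_filter, Finset.sum_const, nsmul_eq_mul, mul_one]
    exact hω0 ω
  rw [ex_const, e1] at e2
  have e3 : (F.card : ℝ) * (1 / 2) ≤ ∑ f ∈ F, pr p (A f) := by
    rw [← nsmul_eq_mul, ← Finset.sum_const]
    exact Finset.sum_le_sum h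
  linarith

theorem gREC : G_REC := by
  classical
  intro hWIN hET hLV hPK hGOOD hSUB n u p N0 k k' M h5 hu1 hun hp0 hp1 hk hk' h52 h32 h200 hBd
  intro F hF hFk
  have hM : 0 ≤ M := by
    have := hBd ∅ (by simp) (by simp)
    simpa using this
  rcases F.eq_empty_or_nonempty with rfl | ⟨f0, hf0⟩
  · simp only [card_empty, Nat.cast_zero]
    positivity
  have hn5 : (5 : ℝ) ≤ n := by exact_mod_cast h5
  have hlog : 0 < Real.log n := Real.log_pos (by linarith)
  have hp3 : 0 < p ^ 3 := by positivity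
  have hN0 : 0 < N0 := by
    by_contra hcon
    push Not at hcon
    have : p ^ 3 * N0 ≤ 0 := mul_nonpos_of_nonneg_of_nonpos hp3.le hcon
    linarith
  have h64 : 64 * Real.log n ≤ p * ((u : ℝ) ^ 2 / n) := by
    have a1 : p * (32 * N0) ≤ p * ((u : ℝ) ^ 2 / n) := mul_le_mul_of_nonneg_left h32 hp0.le
    have a2 : p ^ 3 * N0 ≤ p * N0 := by
      apply mul_le_mul_of_nonneg_right _ hN0.le
      calc p ^ 3 = p * p ^ 2 := by ring
        _ ≤ p * 1 := by
            apply mul_le_mul_of_nonneg_left _ hp0.le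
            exact pow_le_one₀ hp0.le hp1
        _ = p := mul_one p
    linarith
  obtain ⟨ω, hω⟩ := exists_omega F (fun f => Good u p N0 k f0 f) hp0.le hp1 (by
    intro f hf
    exact hGOOD hPK n u f0 f p N0 k h5 (hF f hf) hu1 hun hp0 hp1 hk (hFk f hf f0 hf0) h52 h64)
  set F1 : Finset (Fin n → Fin n) := F.filter (fun f => Good u p N0 k f0 f ω) with hF1
  set R : Finset (Fin n) := Rs ω with hR
  let κ : (Fin n → Fin n) → Finset (Fin n × Fin n) :=
    fun f => (R ∩ Vd f f0).image (fun i => (i, f i))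
  set T : Finset (Finset (Fin n × Fin n)) :=
    (Finset.univ : Finset (Finset (Fin n × Fin n))).filter (fun A => A.card ≤ ⌊4 * p * k⌋₊)
    with hT
  have hmaps : Set.MapsTo κ (F1 : Set (Fin n → Fin n)) (T : Set (Finset (Fin n × Fin n))) := by
    intro f hf
    have hf' := (mem_filter.1 (mem_coe.1 hf)).2
    rw [hT, mem_coe, mem_filter]
    refine ⟨mem_univ _, ?_⟩
    apply Nat.le_floor
    have c1 : ((κ f).card : ℝ) ≤ ((R ∩ Vd f f0).card : ℝ) := by
      exact_mod_cast card_image_le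
    exact c1.trans hf'.2.2.le
  have hfib : ∀ b ∈ T, ((F1.filter (fun f => κ f = b)).card : ℝ) ≤ M := by
    intro b _
    apply hBd
    · intro f hf
      exact hF f (mem_filter.1 (mem_filter.1 hf).1).1
    · intro f hf g hg
      by_contra hcon
      push Not at hcon
      obtain ⟨hf1, hfb⟩ := mem_filter.1 hf
      obtain ⟨hg1, hgb⟩ := mem_filter.1 hg
      obtain ⟨hfF, hfG⟩ := mem_filter.1 hf1
      obtain ⟨hgF, -⟩ := mem_filter.1 hg1
      have hag : ∀ i ∈ R, f i = g i := agree (hfb.trans hgb.symm)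
      rw [Vd_comm] at hcon
      have hne : (Vd g f).Nonempty := by
        rw [← card_pos]
        have : (0 : ℝ) < (Vd g f).card := hk'.trans hcon
        exact_mod_cast this
      have h200' : 200 * ((n : ℝ) ^ 2 / (u : ℝ) ^ 2 + 3 * u) ≤ p * (Vd g f).card :=
        h200.trans (mul_le_mul_of_nonneg_left hcon.le hp0.le)
      have hres := hLV hWIN hET n u f g R p (4 * p * N0) (hF f hfF) (hF g hgF) hu1 hun hp0 hp1
        hne hag h200' hfG.1 hfG.2.1
      have h32' : p * (32 * N0) ≤ p * ((u : ℝ) ^ 2 / n) := mul_le_mul_of_nonneg_left h32 hp0.le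
      linarith
  have hcard : (F1.card : ℝ) ≤ (T.card : ℝ) * M := by
    rw [card_eq_sum_card_fiberwise hmaps, Nat.cast_sum]
    calc ∑ b ∈ T, ((F1.filter (fun f => κ f = b)).card : ℝ) ≤ ∑ _b ∈ T, M :=
          sum_le_sum hfib
      _ = (T.card : ℝ) * M := by rw [sum_const, nsmul_eq_mul]
  have hTc : (T.card : ℝ) ≤ ((n : ℝ) ^ 2 + 1) ^ ⌊4 * p * k⌋₊ := by
    have := hSUB (Fin n × Fin n) ⌊4 * p * k⌋₊
    rw [Fintype.card_prod, Fintype.card_fin] at this
    have h2 : (T.card : ℝ) ≤ (((n * n + 1) ^ ⌊4 * p * k⌋₊ : ℕ) : ℝ) := by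
      exact_mod_cast this
    rw [Nat.cast_pow, Nat.cast_add, Nat.cast_mul, Nat.cast_one] at h2
    rw [pow_two]
    exact h2
  calc (F.card : ℝ) ≤ 2 * (F1.card : ℝ) := hω
    _ ≤ 2 * ((T.card : ℝ) * M) := by linarith
    _ ≤ 2 * (((n : ℝ) ^ 2 + 1) ^ ⌊4 * p * k⌋₊ * M) := by
        have := mul_le_mul_of_nonneg_right hTc hM
        linarith
    _ = 2 * ((n : ℝ) ^ 2 + 1) ^ ⌊4 * p * k⌋₊ * M := by ring

end Pool.Agent.Helper13.CA
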